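import Pool.Agent.H17.CX.Targets

/-!
# Board `cnx_modules`, row LOA: forms of the ideal of the component are locally divisible by `G`
-/

set_option autoImplicit false

open MvPolynomial SC Pool.Agent.H27.LV
open Pool.Agent.H92.SF Pool.Agent.H3.SF Pool.Agent.H17.SD Pool.Agent.H17.SFG Pool.Agent.H17.CX

namespace Pool.Agent.H33.CNX

theorem pf_LOA : T_LOA := by
  intro k F σ _ _ _ _ _ _ X dd m G g Q hS hQ e f hf hfQ s hs hsQ
  classical
  have hsY : ∀ p : MvPolynomial σ k, aeval X p = 0 → eval s p = 0 := fun p hp =>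
    hsQ p (hQ.ker p hp)
  have hsG : eval s G = 0 := hsQ G hQ.mem
  have htn := smo_tng X G hS.smo s hs hsY hsG
  have hX := hS.cone.hmg
  obtain ⟨eg, hg⟩ := hQ.gh
  obtain ⟨hN, L0, L1, cX, cG, ε, X1, Gs, dX, dG, hL0, hL1, hv0, hv1, -, hε, hX1, hGs, hF, -, -⟩ :=
    i_OSF k F σ X s dd G m ⟨fun f d hf => hX f hf d, hsY⟩ hs hS.li hS.one hS.hG hsG htn
  obtain ⟨c, hc, hcG, -⟩ := Pool.Agent.H13.SF.pf_TAY k (Pool.Agent.H84.SF.Os X s) ε X1 Gs dX dG hF
  have hker := i_TAK k (Pool.Agent.H84.SF.Os X s) ε X1 Gs dX dG hF c hc hcG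
  obtain ⟨l, hl'⟩ : ∃ l : F, l = aeval X L0 := ⟨_, rfl⟩
  have hl : l ≠ 0 := fun h => hv0 (hsY _ (hl' ▸ h))
  have hmem : ∀ (d : ℕ) (a : MvPolynomial σ k), a.IsHomogeneous d →
      aeval X a / l ^ d ∈ Pool.Agent.H84.SF.Os X s := by
    intro d a ha
    refine ⟨d, a, L0 ^ d, ⟨ha, by simpa using hL0.pow d, ?_⟩, ?_⟩
    · rw [map_pow, ← hl', div_mul_cancel₀ _ (pow_ne_zero _ hl)]
    · rw [map_pow]
      exact pow_ne_zero _ hv0
  have hGs' : (Gs : F) = aeval X G / l ^ m := by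
    rw [eq_div_iff (pow_ne_zero _ hl), hl']
    exact hGs
  -- division
  have key : ∀ (d : ℕ) (a : MvPolynomial σ k) (ha : a.IsHomogeneous d),
      c ⟨_, hmem d a ha⟩ = 0 → ∃ (d' : ℕ) (p q : MvPolynomial σ k), p.IsHomogeneous (d' + m) ∧
        q.IsHomogeneous (d' + d) ∧ eval s p ≠ 0 ∧ aeval X (p * a) = aeval X (q * G) := by
    intro d a ha h0
    obtain ⟨y, hy⟩ := hker _ h0
    obtain ⟨d', u, b, ⟨hu, hb, hub⟩, hbs⟩ := y.2
    refine ⟨d', b * L0 ^ m, u * L0 ^ d, ?_, ?_, ?_, ?_⟩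
    · have h1 := hL0.pow m
      rw [one_mul] at h1
      exact hb.mul h1
    · have h1 := hL0.pow d
      rw [one_mul] at h1
      exact hu.mul h1
    · rw [map_mul, map_pow]
      exact mul_ne_zero hbs (pow_ne_zero _ hv0)
    · have h1 : aeval X a / l ^ d = (Gs : F) * (y : F) := congrArg Subtype.val hy
      rw [div_eq_iff (pow_ne_zero _ hl)] at h1
      rw [map_mul, map_mul, map_mul, map_mul, map_pow, map_pow, ← hl', h1, ← hub, hGs']
      field_simp
  -- the product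
  have hprod : c ⟨_, hmem e f hf⟩ * c ⟨_, hmem eg g hg⟩ = 0 := by
    rw [← map_mul]
    rcases irp_form X hX G (f * g) hS.hG (hf.mul hg) (hQ.mul f hfQ) with h0 | ⟨n, r, q, hq, hr, hn⟩
    · have h1 : (⟨_, hmem e f hf⟩ * ⟨_, hmem eg g hg⟩ : Pool.Agent.H84.SF.Os X s) = 0 := by
        apply Subtype.ext
        change aeval X f / l ^ e * (aeval X g / l ^ eg) = 0
        rw [div_mul_div_comm, ← map_mul, h0, zero_div]
      rw [h1, map_zero]
    · have hzn : (⟨_, hmem e f hf⟩ * ⟨_, hmem eg g hg⟩ : Pool.Agent.H84.SF.Os X s) ^ n =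
          ⟨_, hmem r q hq⟩ * Gs := by
        apply Subtype.ext
        change (aeval X f / l ^ e * (aeval X g / l ^ eg)) ^ n = aeval X q / l ^ r * (Gs : F)
        rw [hGs', div_mul_div_comm, ← map_mul, ← pow_add, div_pow, ← map_pow, hn, map_mul,
          div_mul_div_comm, ← pow_mul, ← pow_add, hr, mul_comm (e + eg) n]
      have h1 := congrArg c hzn
      rw [map_pow, map_mul _ _ Gs, hcG, mul_zero] at h1
      refine (pow_eq_zero_iff (fun h0 => ?_)).1 h1
      rw [h0, pow_zero] at h1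
      exact one_ne_zero h1
  rcases mul_eq_zero.1 hprod with h1 | h1
  · exact key e f hf h1
  · exfalso
    obtain ⟨d', p, q, -, -, hp, hpq⟩ := key eg g hg h1
    have h2 : p * g - q * G ∈ Q := hQ.ker _ (by rw [map_sub, hpq, sub_self])
    have h3 : p * g ∈ Q := by
      have h4 := Q.add_mem h2 (Q.mul_mem_left q hQ.mem)
      rwa [sub_add_cancel] at h4
    rcases hQ.prime.mem_or_mem h3 with h5 | h5
    · exact hp (hsQ p h5)
    · exact hQ.gn h5

end Pool.Agent.H33.CNX
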